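import Pool.Agent.W651.SO.Stm

set_option autoImplicit false

namespace Pool.Agent.W853.SO

open Set Pool.Agent.W651.SO

section
variable {Y : Type} [TopologicalSpace Y] {Z : ℕ → Set Y} {r : ℕ → Y → Y → Prop}

/-- order on the union -/
def RR (Z : ℕ → Set Y) (r : ℕ → Y → Y → Prop) (x y : Y) : Prop :=
  ∃ m n, x ∈ Z m ∧ y ∈ Z n ∧ (m < n ∨ (m = n ∧ r m x y))

omit [TopologicalSpace Y] in
theorem uniq (hd : ∀ i j, i ≠ j → Disjoint (Z i) (Z j)) {x : Y} {m n : ℕ} (h1 : x ∈ Z m)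
    (h2 : x ∈ Z n) : m = n := by
  by_contra h
  exact Set.disjoint_left.1 (hd m n h) h1 h2

theorem RR_iff (hd : ∀ i j, i ≠ j → Disjoint (Z i) (Z j)) {x y : Y} {m n : ℕ} (h1 : x ∈ Z m)
    (h2 : y ∈ Z n) : RR Z r x y ↔ m < n ∨ (m = n ∧ r m x y) := by
  constructor
  · rintro ⟨m', n', h3, h4, h5⟩
    rw [uniq hd h1 h3, uniq hd h2 h4]
    exact h5
  · intro h
    exact ⟨m, n, h1, h2, h⟩

theorem lo (hCMP : PropCMP) (ho : ∀ i, IsOpen (Z i))
    (hd : ∀ i j, i ≠ j → Disjoint (Z i) (Z j)) (hr : ∀ i, Lo (Z i) (r i))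
    (hc : ∀ i, IsCompact (Z i)) (hn : ∀ i, (Z i).Nonempty) : Lo (⋃ i, Z i) (RR Z r) := by
  constructor
  · intro x hx
    obtain ⟨m, hm⟩ := mem_iUnion.1 hx
    rw [RR_iff hd hm hm]
    rintro (h | ⟨-, h⟩)
    · omega
    · exact (hr m).irrefl x hm h
  · intro x hx y hy z hz
    obtain ⟨m, hm⟩ := mem_iUnion.1 hx
    obtain ⟨n, hn⟩ := mem_iUnion.1 hy
    obtain ⟨k, hk⟩ := mem_iUnion.1 hz
    rw [RR_iff hd hm hn, RR_iff hd hn hk, RR_iff hd hm hk]
    rintro (h | ⟨rfl, h⟩) (h' | ⟨rfl, h'⟩)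
    · left; omega
    · left; omega
    · left; omega
    · right
      exact ⟨rfl, (hr m).trans x hm y hn z hk h h'⟩
  · intro x hx y hy hxy
    obtain ⟨m, hm⟩ := mem_iUnion.1 hx
    obtain ⟨n, hn⟩ := mem_iUnion.1 hy
    rw [RR_iff hd hm hn, RR_iff hd hn hm]
    rcases lt_trichotomy m n with h | h | h
    · left; left; exact h
    · subst h
      rcases (hr m).total x hm y hn hxy with h | h
      · left; right; exact ⟨rfl, h⟩
      · right; right; exact ⟨rfl, h⟩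
    · right; left; exact h
  · intro x hx y hy hyx
    obtain ⟨m, hm⟩ := mem_iUnion.1 hx
    obtain ⟨n, hn⟩ := mem_iUnion.1 hy
    rw [RR_iff hd hn hm] at hyx
    rcases hyx with h | ⟨rfl, h⟩
    · refine ⟨Z n, ho n, hn, fun z hz _ => ?_⟩
      rw [RR_iff hd hz hm]
      exact Or.inl h
    · obtain ⟨O, hO, hyO, h1⟩ := (hr n).lower x hm y hn h
      refine ⟨O ∩ Z n, hO.inter (ho n), ⟨hyO, hn⟩, fun z hz _ => ?_⟩
      rw [RR_iff hd hz.2 hm]
      exact Or.inr ⟨rfl, h1 z hz.1 hz.2⟩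
  · intro x hx y hy hyx
    obtain ⟨m, hm⟩ := mem_iUnion.1 hx
    obtain ⟨n, hn⟩ := mem_iUnion.1 hy
    rw [RR_iff hd hm hn] at hyx
    rcases hyx with h | ⟨rfl, h⟩
    · refine ⟨Z n, ho n, hn, fun z hz _ => ?_⟩
      rw [RR_iff hd hm hz]
      exact Or.inl h
    · obtain ⟨O, hO, hyO, h1⟩ := (hr m).upper x hm y hn h
      refine ⟨O ∩ Z m, hO.inter (ho m), ⟨hyO, hn⟩, fun z hz _ => ?_⟩
      rw [RR_iff hd hm hz.2]
      exact Or.inr ⟨rfl, h1 z hz.1 hz.2⟩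
  · intro x hx O hO hxO
    obtain ⟨n, hxn⟩ := mem_iUnion.1 hx
    rcases (hr n).left x hxn O hO hxO with ⟨a, ha, hax, h1⟩ | h1
    · left
      refine ⟨a, mem_iUnion.2 ⟨n, ha⟩, (RR_iff hd ha hxn).2 (Or.inr ⟨rfl, hax⟩), ?_⟩
      intro z hz
      obtain ⟨k, hk⟩ := mem_iUnion.1 hz
      rw [RR_iff hd ha hk, RR_iff hd hk hxn]
      rintro (h | ⟨rfl, h⟩) (h' | ⟨h3, h'⟩)
      · omega
      · omega
      · omega
      · exact h1 z hk h h'
    · rcases Nat.eq_zero_or_pos n with h0 | h0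
      · subst h0
        right
        intro z hz
        obtain ⟨k, hk⟩ := mem_iUnion.1 hz
        rw [RR_iff hd hk hxn]
        rintro (h' | ⟨rfl, h'⟩)
        · omega
        · exact h1 z hk h'
      · left
        obtain ⟨q, rfl⟩ : ∃ q, n = q + 1 := ⟨n - 1, by omega⟩
        obtain ⟨a, ha, hmax⟩ := (hCMP Y (Z q) (r q) (hc q) (hn q) (hr q)).2
        refine ⟨a, mem_iUnion.2 ⟨q, ha⟩, (RR_iff hd ha hxn).2 (Or.inl (by omega)), ?_⟩
        intro z hz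
        obtain ⟨k, hk⟩ := mem_iUnion.1 hz
        rw [RR_iff hd ha hk, RR_iff hd hk hxn]
        rintro (h | ⟨rfl, h⟩) (h' | ⟨h3, h'⟩)
        · omega
        · subst h3
          exact h1 z hk h'
        · exfalso
          by_cases hza : z = a
          · subst hza
            exact (hr q).irrefl z hk h
          · exact (hr q).irrefl a ha ((hr q).trans a ha z hk a ha h (hmax z hk hza))
        · omega
  · intro x hx O hO hxO
    obtain ⟨n, hxn⟩ := mem_iUnion.1 hx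
    rcases (hr n).right x hxn O hO hxO with ⟨b, hb, hxb, h1⟩ | h1
    · left
      refine ⟨b, mem_iUnion.2 ⟨n, hb⟩, (RR_iff hd hxn hb).2 (Or.inr ⟨rfl, hxb⟩), ?_⟩
      intro z hz
      obtain ⟨k, hk⟩ := mem_iUnion.1 hz
      rw [RR_iff hd hxn hk, RR_iff hd hk hb]
      rintro (h | ⟨rfl, h⟩) (h' | ⟨h3, h'⟩)
      · omega
      · omega
      · omega
      · exact h1 z hk h h'
    · left
      obtain ⟨b, hb, hmin⟩ := (hCMP Y (Z (n + 1)) (r (n + 1)) (hc _) (hn _) (hr _)).1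
      refine ⟨b, mem_iUnion.2 ⟨n + 1, hb⟩, (RR_iff hd hxn hb).2 (Or.inl (by omega)), ?_⟩
      intro z hz
      obtain ⟨k, hk⟩ := mem_iUnion.1 hz
      rw [RR_iff hd hxn hk, RR_iff hd hk hb]
      rintro (h | ⟨rfl, h⟩) (h' | ⟨h3, h'⟩)
      · omega
      · exfalso
        subst h3
        by_cases hzb : z = b
        · subst hzb
          exact (hr (n + 1)).irrefl z hk h'
        · exact (hr (n + 1)).irrefl b hb
            ((hr (n + 1)).trans b hb z hk b hb (hmin z hk hzb) h')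
      · exact h1 z hk h
      · omega

theorem scc : PropFLIP → PropCMP → PropSCC := by
  intro hFLIP hCMP Y _ Z ho hd hr hc hn
  choose r hr using hr
  have hL := lo hCMP ho hd hr hc hn
  refine ⟨⟨_, hL⟩, fun _ => ⟨⟨_, hL, ?_⟩, ⟨_, hFLIP Y _ _ hL, ?_⟩⟩⟩
  · obtain ⟨b, hb, hmin⟩ := (hCMP Y (Z 0) (r 0) (hc _) (hn _) (hr _)).1
    refine ⟨b, mem_iUnion.2 ⟨0, hb⟩, ?_⟩
    intro z hz hzb
    obtain ⟨k, hk⟩ := mem_iUnion.1 hz
    rw [RR_iff hd hb hk]
    rcases Nat.eq_zero_or_pos k with h0 | h0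
    · subst h0
      exact Or.inr ⟨rfl, hmin z hk hzb⟩
    · exact Or.inl h0
  · rintro ⟨m, hm, hmax⟩
    obtain ⟨n, hmn⟩ := mem_iUnion.1 hm
    obtain ⟨y, hy⟩ := hn (n + 1)
    have hne : y ≠ m := by
      rintro rfl
      have := uniq hd hmn hy
      omega
    have h1 : RR Z r y m := hmax y (mem_iUnion.2 ⟨n + 1, hy⟩) hne
    rw [RR_iff hd hy hmn] at h1
    rcases h1 with h | ⟨h, -⟩ <;> omega

end

end Pool.Agent.W853.SO
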